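import Pool.Agent.H818R2.Base2

/-! Voronoi cells of lattices and periodic packings with many translates (helper304). -/

set_option autoImplicit false
set_option linter.unusedSectionVars false

open MeasureTheory Metric Filter Set
open scoped Topology Pointwise InnerProductSpace

namespace Pool.Agent.N304.TR
open Pool.Agent.H818R2

variable {E : Type*} [NormedAddCommGroup E] [InnerProductSpace ℝ E] [FiniteDimensional ℝ E]
  [MeasurableSpace E] [BorelSpace E]

/-- the closed Voronoi cell of a lattice -/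
def cell (Λ : Submodule ℤ E) : Set E := {x | ∀ γ ∈ Λ, 2 * ⟪x, γ⟫_ℝ ≤ ‖γ‖ ^ 2}

lemma cell_closed (Λ : Submodule ℤ E) : IsClosed (cell Λ) := by
  have : cell Λ = ⋂ γ ∈ Λ, {x : E | 2 * ⟪x, γ⟫_ℝ ≤ ‖γ‖ ^ 2} := by
    ext x; simp [cell]
  rw [this]
  refine isClosed_biInter fun γ _ => ?_
  exact isClosed_le (by fun_prop) continuous_const

lemma finite_lat (Λ : Submodule ℤ E) [DiscreteTopology Λ] (x : E) (T : ℝ) :
    {z | z ∈ Λ ∧ ‖x - z‖ ≤ T}.Finite := by
  have h1 : DiscreteTopology Λ.toAddSubgroup := ‹DiscreteTopology Λ›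
  have hcl : IsClosed (Λ : Set E) := AddSubgroup.isClosed_of_discrete (H := Λ.toAddSubgroup)
  have h2 := Metric.finite_isBounded_inter_isClosed (s := (Λ : Set E))
    (isDiscrete_iff_discreteTopology.2 ‹DiscreteTopology Λ›)
    (isBounded_closedBall (x := x) (r := T)) hcl
  refine h2.subset ?_
  rintro z ⟨hz1, hz2⟩
  refine ⟨?_, hz1⟩
  rw [mem_closedBall, dist_comm, dist_eq_norm]
  exact hz2

/-- the cell covers -/
lemma cell_cover (Λ : Submodule ℤ E) [DiscreteTopology Λ] [IsZLattice ℝ Λ] :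
    ∃ ρ : ℝ, 0 ≤ ρ ∧ ∀ x : E, ∃ γ ∈ Λ, x - γ ∈ cell Λ ∩ closedBall 0 ρ := by
  have hcard : Module.finrank ℤ Λ = Module.finrank ℝ E := ZLattice.rank ℝ Λ
  let b : Module.Basis (Fin (Module.finrank ℝ E)) ℤ Λ := Module.finBasisOfFinrankEq ℤ Λ hcard
  obtain ⟨δ, hδ⟩ := (ZSpan.fundamentalDomain_isBounded (b.ofZLatticeBasis ℝ)).subset_closedBall 0
  refine ⟨max δ 0, le_max_right _ _, fun x => ?_⟩
  -- a lattice point near x
  obtain ⟨v, hv, -⟩ := ZSpan.exist_unique_vadd_mem_fundamentalDomain (b.ofZLatticeBasis ℝ) x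
  have hvΛ : (v : E) ∈ Λ := (b.ofZLatticeBasis_span ℝ).le v.2
  have hv' : (v : E) + x ∈ ZSpan.fundamentalDomain (b.ofZLatticeBasis ℝ) := hv
  have h0 := hδ hv'
  rw [mem_closedBall_zero_iff] at h0
  set S : Set E := {z | z ∈ Λ ∧ ‖x - z‖ ≤ max δ 0} with hS
  have hSf : S.Finite := finite_lat Λ x _
  have hSne : S.Nonempty := ⟨-(v : E), Λ.neg_mem hvΛ, by
    rw [sub_neg_eq_add, add_comm]; exact h0.trans (le_max_left _ _)⟩
  obtain ⟨γ, hγS, hmin⟩ := hSf.exists_minimalFor (fun z => ‖x - z‖) S hSne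
  refine ⟨γ, hγS.1, ?_, by rw [mem_closedBall_zero_iff]; exact hγS.2⟩
  intro γ' hγ'
  have h1 : ‖x - γ‖ ≤ ‖x - (γ + γ')‖ := by
    by_cases h : ‖x - (γ + γ')‖ ≤ max δ 0
    · by_contra hcon
      push Not at hcon
      have := hmin (show γ + γ' ∈ S from ⟨Λ.add_mem hγS.1 hγ', h⟩) hcon.le
      exact absurd this (not_le.2 hcon)
    · push Not at h
      exact hγS.2.trans h.le
  have h2 : ‖x - (γ + γ')‖ ^ 2 = ‖x - γ‖ ^ 2 - 2 * ⟪x - γ, γ'⟫_ℝ + ‖γ'‖ ^ 2 := by
    rw [show x - (γ + γ') = (x - γ) - γ' by abel, norm_sub_sq_real]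
  have h3 : ‖x - γ‖ ^ 2 ≤ ‖x - (γ + γ')‖ ^ 2 := pow_le_pow_left₀ (norm_nonneg _) h1 2
  linarith

/-- a bounded part of the cell has at least the volume of a fundamental domain -/
lemma cell_vol (Λ : Submodule ℤ E) [DiscreteTopology Λ] [IsZLattice ℝ Λ] :
    ∃ ρ : ℝ, 0 ≤ ρ ∧ ZLattice.covolume Λ ≤ volume.real (cell Λ ∩ closedBall 0 ρ) := by
  obtain ⟨ρ, hρ, hcov⟩ := cell_cover Λ
  refine ⟨ρ, hρ, ?_⟩
  have hcard : Module.finrank ℤ Λ = Module.finrank ℝ E := ZLattice.rank ℝ Λ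
  let b : Module.Basis (Fin (Module.finrank ℝ E)) ℤ Λ := Module.finBasisOfFinrankEq ℤ Λ hcard
  set D := ZSpan.fundamentalDomain (b.ofZLatticeBasis ℝ) with hD
  have hfd : IsAddFundamentalDomain Λ D volume := ZLattice.isAddFundamentalDomain b volume
  have hcovD : ZLattice.covolume Λ = volume.real D :=
    ZLattice.covolume_eq_measure_fundamentalDomain Λ volume hfd
  set V := cell Λ ∩ closedBall (0 : E) ρ with hV
  have h1 : D ⊆ ⋃ g : Λ, (g +ᵥ V) ∩ D := by
    intro x hx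
    obtain ⟨γ, hγ, hxV⟩ := hcov x
    rw [mem_iUnion]
    refine ⟨⟨γ, hγ⟩, ?_, hx⟩
    refine ⟨x - γ, hxV, ?_⟩
    show (γ : E) + (x - γ) = x
    abel
  have hinv : VAddInvariantMeasure Λ E volume :=
    (inferInstance : VAddInvariantMeasure Λ.toAddSubgroup E volume)
  have hms : MeasurableConstVAdd Λ E :=
    (inferInstance : MeasurableConstVAdd Λ.toAddSubgroup E)
  have h2 : volume D ≤ volume V := by
    calc volume D ≤ volume (⋃ g : Λ, (g +ᵥ V) ∩ D) := measure_mono h1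
      _ ≤ ∑' g : Λ, volume ((g +ᵥ V) ∩ D) := measure_iUnion_le _
      _ = volume V := (hfd.measure_eq_tsum V).symm
  rw [hcovD, measureReal_def, measureReal_def]
  refine ENNReal.toReal_mono ?_ h2
  exact ((measure_mono inter_subset_right).trans_lt measure_closedBall_lt_top).ne

/-- two points of the shrunken cell in different translates are far apart -/
lemma cell_sep {Λ : Submodule ℤ E} {v w γ : E} (hv : v ∈ cell Λ) (hw : w ∈ cell Λ) (hγ : γ ∈ Λ)
    (hγ0 : γ ≠ 0) {s : ℝ} (hs : 0 ≤ s) : (1 - s) * ‖γ‖ ≤ ‖s • v - s • w - γ‖ := by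
  have h1 := hv γ hγ
  have h2 := hw (-γ) (Λ.neg_mem hγ)
  rw [inner_neg_right, norm_neg] at h2
  have h3 : ⟪s • v - s • w, γ⟫_ℝ ≤ s * ‖γ‖ ^ 2 := by
    rw [inner_sub_left, inner_smul_left, inner_smul_left]
    simp only [RCLike.conj_to_real]
    nlinarith
  have h4 : (1 - s) * ‖γ‖ ^ 2 ≤ ⟪γ - (s • v - s • w), γ⟫_ℝ := by
    rw [inner_sub_left, real_inner_self_eq_norm_sq]
    linarith
  have h5 := real_inner_le_norm (γ - (s • v - s • w)) γ
  have h6 : 0 < ‖γ‖ := norm_pos_iff.2 hγ0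
  have h7 : (1 - s) * ‖γ‖ * ‖γ‖ ≤ ‖γ - (s • v - s • w)‖ * ‖γ‖ := by
    calc (1 - s) * ‖γ‖ * ‖γ‖ = (1 - s) * ‖γ‖ ^ 2 := by ring
      _ ≤ _ := h4.trans h5
  rw [← norm_neg (s • v - s • w - γ), neg_sub]
  exact le_of_mul_le_mul_right h7 h6

/-- `F + Λ` is a packing of balls of radius `r`, and the elements of `F` are incongruent -/
structure PerPack (Λ : Submodule ℤ E) (F : Finset E) (r : ℝ) : Prop where
  disc : DiscreteTopology Λ
  span_top : Submodule.span ℝ (Λ : Set E) = ⊤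
  pos : 0 < r
  sep : ∀ x ∈ F, ∀ y ∈ F, ∀ γ ∈ Λ, (x = y → γ ≠ 0) → 2 * r ≤ ‖x - y - γ‖

/-- **Filling a lattice.** -/
theorem fill (Λ : Submodule ℤ E) [DiscreteTopology Λ] [IsZLattice ℝ Λ] {d r : ℝ}
    (hd : ∀ γ ∈ Λ, γ ≠ 0 → d ≤ ‖γ‖) (hr : 0 < r) (hrd : 2 * r < d) :
    ∃ F : Finset E, PerPack Λ F r ∧
      optDensity E * (1 - 2 * r / d) ^ Module.finrank ℝ E * ZLattice.covolume Λ ≤
        F.card * (r ^ Module.finrank ℝ E * vb E) := by
  classical
  set n := Module.finrank ℝ E with hn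
  obtain ⟨ρ, hρ, hvol⟩ := cell_vol Λ
  have hcov0 : 0 < ZLattice.covolume Λ := ZLattice.covolume_pos Λ volume
  have hd0 : 0 < d := by linarith
  set s : ℝ := 1 - 2 * r / d with hs
  have hs0 : 0 < s := by
    rw [hs, sub_pos, div_lt_one hd0]; exact hrd
  set V := cell Λ ∩ closedBall (0 : E) ρ with hV
  have hVm : MeasurableSet V := (cell_closed Λ).measurableSet.inter isClosed_closedBall.measurableSet
  have hsr : 0 < s / r := by positivity
  set G : Set E := (s / r) • V with hG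
  have hGm : MeasurableSet G := hVm.const_smul₀ _
  have hGb : G ⊆ closedBall 0 ((s / r) * ρ) := by
    rintro _ ⟨v, hv, rfl⟩
    have := hv.2
    rw [mem_closedBall_zero_iff] at this ⊢
    show ‖(s / r) • v‖ ≤ _
    rw [norm_smul, Real.norm_of_nonneg hsr.le]
    gcongr
  have hGv : volume.real G = (s / r) ^ n * volume.real V := by
    rw [hG, measureReal_def, Measure.addHaar_smul, ENNReal.toReal_mul,
      ENNReal.toReal_ofReal (abs_nonneg _), abs_of_nonneg (by positivity), measureReal_def]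
  have hV0 : 0 < volume.real V := hcov0.trans_le hvol
  obtain ⟨P, hP, hPG, hPc⟩ := exists_large hGm (by positivity) hGb (by rw [hGv]; positivity)
  refine ⟨P.image (fun p => r • p), ⟨‹_›, IsZLattice.span_top, hr, ?_⟩, ?_⟩
  · intro x hx y hy γ hγ hxy
    simp only [Finset.mem_image] at hx hy
    obtain ⟨p, hp, rfl⟩ := hx
    obtain ⟨q, hq, rfl⟩ := hy
    by_cases hγ0 : γ = 0
    · have hpq : p ≠ q := by
        rintro rfl
        exact hxy rfl hγ0
      have h1 := hP p hp q hq hpq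
      rw [dist_eq_norm] at h1
      rw [hγ0, sub_zero, ← smul_sub, norm_smul, Real.norm_of_nonneg hr.le]
      nlinarith
    · obtain ⟨v, hv, hvp⟩ := hPG hp
      obtain ⟨w, hw, hwq⟩ := hPG hq
      have e1 : r • p = s • v := by
        rw [← hvp]
        show r • ((s / r) • v) = s • v
        rw [smul_smul]; congr 1; field_simp
      have e2 : r • q = s • w := by
        rw [← hwq]
        show r • ((s / r) • w) = s • w
        rw [smul_smul]; congr 1; field_simp
      rw [e1, e2]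
      refine le_trans ?_ (cell_sep hv.1 hw.1 hγ hγ0 hs0.le)
      have h1 := hd γ hγ hγ0
      have h2 : 1 - s = 2 * r / d := by rw [hs]; ring
      rw [h2]
      calc 2 * r = 2 * r / d * d := by field_simp
        _ ≤ 2 * r / d * ‖γ‖ := by gcongr
  · rw [Finset.card_image_of_injective _ (smul_right_injective E hr.ne')]
    rw [hGv] at hPc
    calc optDensity E * s ^ n * ZLattice.covolume Λ
        ≤ optDensity E * s ^ n * volume.real V := by
          refine mul_le_mul_of_nonneg_left hvol ?_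
          exact mul_nonneg optDensity_nonneg (by positivity)
      _ = (optDensity E * ((s / r) ^ n * volume.real V)) * r ^ n := by
          rw [div_pow]; field_simp
      _ ≤ (P.card * vb E) * r ^ n := by gcongr
      _ = P.card * (r ^ n * vb E) := by ring

end Pool.Agent.N304.TR
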