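import Pool.Agent.N304.TR.Cell

/-! Densities of periodic packings (helper304). -/

set_option autoImplicit false
set_option linter.unusedSectionVars false

open MeasureTheory Metric Filter Set
open scoped Topology Pointwise InnerProductSpace

namespace Pool.Agent.N304.TR
open Pool.Agent.H818R2

variable {E : Type*} [NormedAddCommGroup E] [InnerProductSpace ℝ E] [FiniteDimensional ℝ E]
  [MeasurableSpace E] [BorelSpace E]

lemma finite_lat0 (Λ : Submodule ℤ E) [DiscreteTopology Λ] (T : ℝ) :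
    {z | z ∈ Λ ∧ ‖z‖ ≤ T}.Finite := by
  have := finite_lat Λ (0 : E) T
  simpa using this

/-- many lattice points in a ball (cf. `dens_le_upper` of `Pool.Agent.N621.QC.Asym`) -/
lemma lat_count (Λ : Submodule ℤ E) [DiscreteTopology Λ] [IsZLattice ℝ Λ] :
    ∃ δ : ℝ, 0 ≤ δ ∧ ∀ R : ℝ, 0 < R → R ^ Module.finrank ℝ E * vb E ≤
      ((finite_lat0 Λ (R + δ)).toFinset.card : ℝ) * ZLattice.covolume Λ := by
  classical
  have hcard : Module.finrank ℤ Λ = Module.finrank ℝ E := ZLattice.rank ℝ Λ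
  set n := Module.finrank ℝ E with hn
  let b : Module.Basis (Fin n) ℤ Λ := Module.finBasisOfFinrankEq ℤ Λ hcard
  set D := ZSpan.fundamentalDomain (b.ofZLatticeBasis ℝ) with hD
  have hfd : IsAddFundamentalDomain Λ D volume := ZLattice.isAddFundamentalDomain b volume
  have hcov : ZLattice.covolume Λ = volume.real D :=
    ZLattice.covolume_eq_measure_fundamentalDomain Λ volume hfd
  obtain ⟨δ0, hδ0⟩ := (ZSpan.fundamentalDomain_isBounded (b.ofZLatticeBasis ℝ)).subset_closedBall 0
  set δ := max δ0 0 with hδ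
  have hδn : 0 ≤ δ := le_max_right _ _
  have hDδ : ∀ x ∈ D, ‖x‖ ≤ δ := by
    intro x hx
    have := hδ0 hx
    rw [mem_closedBall_zero_iff] at this
    exact this.trans (le_max_left _ _)
  refine ⟨δ, hδn, fun R hR => ?_⟩
  have h1 : ball (0 : E) R ⊆ ⋃ z ∈ (finite_lat0 Λ (R + δ)).toFinset, z +ᵥ D := by
    intro x hx
    rw [mem_ball_zero_iff] at hx
    obtain ⟨v, hv, -⟩ := ZSpan.exist_unique_vadd_mem_fundamentalDomain (b.ofZLatticeBasis ℝ) x
    have hvΛ : (v : E) ∈ Λ := by
      exact (b.ofZLatticeBasis_span ℝ).le v.2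
    have hv' : (v : E) + x ∈ D := hv
    simp only [mem_iUnion, exists_prop, Finite.mem_toFinset, mem_ofPred_eq]
    refine ⟨-(v : E), ⟨Λ.neg_mem hvΛ, ?_⟩, ?_⟩
    · rw [norm_neg]
      calc ‖(v : E)‖ = ‖((v : E) + x) - x‖ := by congr 1; abel
        _ ≤ ‖(v : E) + x‖ + ‖x‖ := norm_sub_le _ _
        _ ≤ R + δ := by linarith [hDδ _ hv']
    · refine ⟨(v : E) + x, hv', ?_⟩
      simp
  have h2 : volume.real (ball (0 : E) R) ≤
      volume.real (⋃ z ∈ (finite_lat0 Λ (R + δ)).toFinset, z +ᵥ D) := by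
    have hlt : volume (⋃ z ∈ (finite_lat0 Λ (R + δ)).toFinset, z +ᵥ D) ≠ ⊤ := by
      refine (measure_biUnion_lt_top (Finset.finite_toSet _) ?_).ne
      intro i _
      rw [measure_vadd]
      exact (ZSpan.fundamentalDomain_isBounded (b.ofZLatticeBasis ℝ)).measure_lt_top
    exact measureReal_mono h1 hlt
  rw [vol_ball 0 hR] at h2
  refine h2.trans ((measureReal_biUnion_finset_le _ _).trans (le_of_eq ?_))
  have h3 : ∀ z ∈ (finite_lat0 Λ (R + δ)).toFinset, volume.real (z +ᵥ D) = ZLattice.covolume Λ := by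
    intro z _
    rw [hcov, measureReal_def, measure_vadd, measureReal_def]
  rw [Finset.sum_congr rfl h3]
  simp

/-- the density of a periodic packing is at most the optimal density -/
theorem per_le [Nontrivial E] {Λ : Submodule ℤ E} {F : Finset E} {r : ℝ} (h : PerPack Λ F r) :
    (F.card : ℝ) * (r ^ Module.finrank ℝ E * vb E) / ZLattice.covolume Λ ≤ optDensity E := by
  classical
  have hdisc := h.disc
  have hlat : IsZLattice ℝ Λ := ⟨h.span_top⟩
  have hr := h.pos
  set n := Module.finrank ℝ E with hn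
  obtain ⟨δ, hδ, hcount⟩ := lat_count Λ
  have hcov0 : 0 < ZLattice.covolume Λ := ZLattice.covolume_pos Λ volume
  have hv := vb_pos (E := E)
  refine le_of_forall_lt fun a ha => ?_
  obtain ⟨a', haa', ha'⟩ := exists_between ha
  refine lt_of_lt_of_le haa' ?_
  set c0 : ℝ := ∑ f ∈ F, ‖f‖ with hc0
  have hc00 : 0 ≤ c0 := Finset.sum_nonneg fun _ _ => norm_nonneg _
  have hc0F : ∀ f ∈ F, ‖f‖ ≤ c0 := fun f hf =>
    Finset.single_le_sum (f := fun f => ‖f‖) (fun _ _ => norm_nonneg _) hf
  have hlim : Tendsto (fun R : ℝ => (F.card : ℝ) * (((r * R - (c0 + δ)) / R) ^ n * vb E) /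
      ZLattice.covolume Λ) atTop (𝓝 ((F.card : ℝ) * (r ^ n * vb E) / ZLattice.covolume Λ)) := by
    have h1 : Tendsto (fun R : ℝ => (r * R - (c0 + δ)) / R) atTop (𝓝 r) := by
      have h2 : Tendsto (fun R : ℝ => r - (c0 + δ) / R) atTop (𝓝 (r - 0)) :=
        tendsto_const_nhds.sub (tendsto_const_nhds.div_atTop tendsto_id)
      rw [sub_zero] at h2
      refine h2.congr' ?_
      filter_upwards [eventually_gt_atTop 0] with R hR
      field_simp
    exact (((h1.pow n).mul_const _).const_mul _).div_const _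
  obtain ⟨R1, hR1⟩ := eventually_atTop.1 (hlim.eventually (lt_mem_nhds ha'))
  apply glue (R0 := max (max R1 1) ((c0 + δ + 1) / r))
  intro R hR
  have hR1' : R1 ≤ R := (le_max_left _ _).trans ((le_max_left _ _).trans hR)
  have hR0 : 1 ≤ R := (le_max_right _ _).trans ((le_max_left _ _).trans hR)
  have hRr : c0 + δ + 1 ≤ r * R := by
    have := (le_max_right _ _).trans hR
    rw [div_le_iff₀ hr] at this
    linarith
  have hRpos : 0 < R := by linarith
  set L := (finite_lat0 Λ (r * R - (c0 + δ) + δ)).toFinset with hL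
  have hLm : ∀ z, z ∈ L ↔ z ∈ Λ ∧ ‖z‖ ≤ r * R - c0 := by
    intro z
    simp only [hL, Finite.mem_toFinset, mem_ofPred_eq]
    rw [show r * R - (c0 + δ) + δ = r * R - c0 by ring]
  -- the points
  have hinj : ∀ p ∈ F ×ˢ L, ∀ q ∈ F ×ˢ L, p ≠ q → 2 * r ≤ ‖(p.1 + p.2) - (q.1 + q.2)‖ := by
    rintro ⟨x, γ⟩ hp ⟨y, γ'⟩ hq hpq
    simp only [Finset.mem_product] at hp hq
    have h1 := h.sep x hp.1 y hq.1 (γ' - γ) (Λ.sub_mem ((hLm _).1 hq.2).1 ((hLm _).1 hp.2).1) (by
      rintro rfl h0
      exact hpq (by rw [sub_eq_zero.1 h0]))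
    refine h1.trans (le_of_eq ?_)
    congr 1
    simp only
    abel
  refine ⟨(F ×ˢ L).image (fun p => r⁻¹ • (p.1 + p.2)), ?_, ?_, ?_⟩
  · intro x hx y hy hxy
    simp only [Finset.mem_image] at hx hy
    obtain ⟨p, hp, rfl⟩ := hx
    obtain ⟨q, hq, rfl⟩ := hy
    have hpq : p ≠ q := by rintro rfl; exact hxy rfl
    have h1 := hinj p hp q hq hpq
    rw [dist_eq_norm, ← smul_sub, norm_smul, norm_inv, Real.norm_of_nonneg hr.le,
      inv_mul_eq_div, le_div_iff₀ hr]
    exact h1
  · intro x hx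
    simp only [Finset.mem_image] at hx
    obtain ⟨p, hp, rfl⟩ := hx
    rw [Finset.mem_product] at hp
    rw [norm_smul, norm_inv, Real.norm_of_nonneg hr.le, inv_mul_eq_div, div_le_iff₀ hr]
    have h1 := norm_add_le p.1 p.2
    have h2 := hc0F _ hp.1
    have h3 := ((hLm _).1 hp.2).2
    nlinarith
  · rw [Finset.card_image_of_injOn, Finset.card_product, Nat.cast_mul]
    · have h1 := hcount (r * R - (c0 + δ)) (by linarith)
      rw [← hL] at h1
      have h2 := (hR1 R hR1').le
      rw [le_div_iff₀ hcov0] at h2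
      have h3 : a' * R ^ n * ZLattice.covolume Λ ≤ F.card * ((r * R - (c0 + δ)) ^ n * vb E) := by
        calc a' * R ^ n * ZLattice.covolume Λ = a' * ZLattice.covolume Λ * R ^ n := by ring
          _ ≤ F.card * (((r * R - (c0 + δ)) / R) ^ n * vb E) * R ^ n := by gcongr
          _ = F.card * ((r * R - (c0 + δ)) ^ n * vb E) := by
              rw [div_pow]; field_simp
      have h4 : (F.card : ℝ) * ((r * R - (c0 + δ)) ^ n * vb E) ≤
          F.card * (L.card * ZLattice.covolume Λ) := by gcongr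
      have h5 := h3.trans h4
      rw [← mul_assoc] at h5
      exact le_of_mul_le_mul_right h5 hcov0
    · intro p hp q hq hpq
      by_contra hne
      have h1 := hinj p hp q hq hne
      have h2 : p.1 + p.2 = q.1 + q.2 := smul_right_injective E (inv_ne_zero hr.ne') hpq
      rw [h2, sub_self, norm_zero] at h1
      linarith

end Pool.Agent.N304.TR
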