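import Pool.Agent.N304.TR.Count
import Pool.Agent.H818R2.Rate

/-! The number of translates (helper304). -/

set_option autoImplicit false
set_option linter.unusedSectionVars false

open MeasureTheory Metric Filter Set
open scoped Topology Pointwise InnerProductSpace

namespace Pool.Agent.N304.TR
open Pool.Agent.H818R2

/-- Euclidean space `ℝ^n`. -/
abbrev En (n : ℕ) : Type := EuclideanSpace ℝ (Fin n)

/-- the densities of the lattice packings of `ℝ^n` -/
def latSet (n : ℕ) : Set ℝ :=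
  {ρ | ∃ (Λ : Submodule ℤ (En n)) (r : ℝ), PerPack Λ {0} r ∧
    ρ = r ^ n * vb (En n) / ZLattice.covolume Λ}

/-- the densities of the packings of `ℝ^n` with at most `N` translates of a lattice -/
def perSet (n N : ℕ) : Set ℝ :=
  {ρ | ∃ (Λ : Submodule ℤ (En n)) (F : Finset (En n)) (r : ℝ), PerPack Λ F r ∧ F.card ≤ N ∧
    ρ = F.card * (r ^ n * vb (En n)) / ZLattice.covolume Λ}

section
variable {n : ℕ}

lemma lat_iff {Λ : Submodule ℤ (En n)} {r : ℝ} : PerPack Λ {0} r ↔
    DiscreteTopology Λ ∧ Submodule.span ℝ (Λ : Set (En n)) = ⊤ ∧ 0 < r ∧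
      ∀ γ ∈ Λ, γ ≠ 0 → 2 * r ≤ ‖γ‖ := by
  constructor
  · intro h
    refine ⟨h.disc, h.span_top, h.pos, fun γ hγ h0 => ?_⟩
    have := h.sep 0 (by simp) 0 (by simp) γ hγ (fun _ => h0)
    simpa using this
  · rintro ⟨h1, h2, h3, h4⟩
    refine ⟨h1, h2, h3, ?_⟩
    intro x hx y hy γ hγ hxy
    simp only [Finset.mem_singleton] at hx hy
    subst hx hy
    have := h4 γ hγ (hxy rfl)
    simpa using this

lemma covol_pos {Λ : Submodule ℤ (En n)} {F : Finset (En n)} {r : ℝ} (h : PerPack Λ F r) :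
    0 < ZLattice.covolume Λ := by
  have := h.disc
  have : IsZLattice ℝ Λ := ⟨h.span_top⟩
  exact ZLattice.covolume_pos Λ volume

lemma per_le_rho (hn : 0 < n) {Λ : Submodule ℤ (En n)} {F : Finset (En n)} {r : ℝ}
    (h : PerPack Λ F r) :
    (F.card : ℝ) * (r ^ n * vb (En n)) / ZLattice.covolume Λ ≤ rho n := by
  have : NeZero n := ⟨hn.ne'⟩
  have h1 := per_le h
  rwa [finrank_euclideanSpace_fin] at h1

lemma perSet_le (hn : 0 < n) (N : ℕ) : ∀ ρ ∈ perSet n N, ρ ≤ rho n := by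
  rintro ρ ⟨Λ, F, r, h, -, rfl⟩
  exact per_le_rho hn h

lemma perSet_bdd (hn : 0 < n) (N : ℕ) : BddAbove (perSet n N) := ⟨_, perSet_le hn N⟩

lemma latSet_sub {N : ℕ} (hN : 0 < N) : latSet n ⊆ perSet n N := by
  rintro ρ ⟨Λ, r, h, rfl⟩
  exact ⟨Λ, {0}, r, h, by rw [Finset.card_singleton]; exact hN, by simp⟩

lemma latSet_bdd (hn : 0 < n) : BddAbove (latSet n) :=
  (perSet_bdd hn 1).mono (latSet_sub one_pos)

/-- there is a lattice packing -/
lemma exists_lat (n : ℕ) : ∃ (Λ : Submodule ℤ (En n)) (r : ℝ), PerPack Λ {0} r := by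
  let b : Module.Basis (Fin n) ℝ (En n) := (EuclideanSpace.basisFun (Fin n) ℝ).toBasis
  set Λ : Submodule ℤ (En n) := Submodule.span ℤ (Set.range b) with hΛ
  have hdisc : DiscreteTopology Λ := inferInstance
  obtain ⟨ε, hε, hb⟩ := Metric.exists_ball_inter_eq_singleton_of_mem_discrete
    (isDiscrete_iff_discreteTopology.2 hdisc) (Λ.zero_mem : (0 : En n) ∈ (Λ : Set (En n)))
  have hlat : IsZLattice ℝ Λ := inferInstance
  refine ⟨Λ, ε / 2, lat_iff.2 ⟨hdisc, hlat.span_top, by positivity, ?_⟩⟩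
  intro γ hγ h0
  by_contra hcon
  push Not at hcon
  have : γ ∈ ball (0 : En n) ε ∩ (Λ : Set (En n)) := by
    refine ⟨?_, hγ⟩
    rw [mem_ball_zero_iff]; linarith
  rw [hb] at this
  exact h0 this

lemma lat_pos (hn : 0 < n) : 0 < sSup (latSet n) := by
  obtain ⟨Λ, r, h⟩ := exists_lat n
  have h1 : r ^ n * vb (En n) / ZLattice.covolume Λ ∈ latSet n := ⟨Λ, r, h, rfl⟩
  have h2 := vb_pos (E := En n)
  have h3 := covol_pos h
  have h4 := h.pos
  exact lt_of_lt_of_le (by positivity) (le_csSup (latSet_bdd hn) h1)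

lemma lat_le_per (hn : 0 < n) {N : ℕ} (hN : 0 < N) : sSup (latSet n) ≤ sSup (perSet n N) := by
  obtain ⟨Λ, r, h⟩ := exists_lat n
  exact csSup_le_csSup (perSet_bdd hn N) ⟨_, Λ, r, h, rfl⟩ (latSet_sub hN)

lemma per_pos (hn : 0 < n) {N : ℕ} (hN : 0 < N) : 0 < sSup (perSet n N) :=
  (lat_pos hn).trans_le (lat_le_per hn hN)

lemma perSet_ne {N : ℕ} (hN : 0 < N) : (perSet n N).Nonempty := by
  obtain ⟨Λ, r, h⟩ := exists_lat n
  exact ⟨_, latSet_sub hN ⟨Λ, r, h, rfl⟩⟩

lemma per_le_rho' (hn : 0 < n) {N : ℕ} (hN : 0 < N) : sSup (perSet n N) ≤ rho n :=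
  csSup_le (perSet_ne hN) (perSet_le hn N)

lemma per_le_mul (hn : 0 < n) {N : ℕ} (hN : 0 < N) :
    sSup (perSet n N) ≤ N * sSup (latSet n) := by
  refine csSup_le (perSet_ne hN) ?_
  rintro ρ ⟨Λ, F, r, h, hF, rfl⟩
  have hl := lat_pos hn
  have h2 := vb_pos (E := En n)
  have h3 := covol_pos h
  have h4 := h.pos
  rcases F.eq_empty_or_nonempty with rfl | ⟨x, hx⟩
  · simp only [Finset.card_empty, Nat.cast_zero, zero_mul, zero_div]
    positivity
  · have h5 : PerPack Λ {0} r := lat_iff.2 ⟨h.disc, h.span_top, h.pos, fun γ hγ h0 => by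
      have := h.sep x hx x hx γ hγ (fun _ => h0)
      simpa using this⟩
    have h6 : r ^ n * vb (En n) / ZLattice.covolume Λ ≤ sSup (latSet n) :=
      le_csSup (latSet_bdd hn) ⟨Λ, r, h5, rfl⟩
    have h7 : (F.card : ℝ) ≤ N := by exact_mod_cast hF
    calc (F.card : ℝ) * (r ^ n * vb (En n)) / ZLattice.covolume Λ
        = F.card * (r ^ n * vb (En n) / ZLattice.covolume Λ) := by ring
      _ ≤ N * sSup (latSet n) := by gcongr

lemma sub_pack {Λ : Submodule ℤ (En n)} {F F' : Finset (En n)} {r : ℝ} (h : PerPack Λ F r)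
    (hF : F' ⊆ F) : PerPack Λ F' r :=
  ⟨h.disc, h.span_top, h.pos, fun x hx y hy => h.sep x (hF hx) y (hF hy)⟩

/-- every lattice: filling -/
theorem fill' {Λ : Submodule ℤ (En n)} {r0 r : ℝ} (h : PerPack Λ {0} r0) (hr : 0 < r)
    (hr0 : r < r0) : ∃ F : Finset (En n), PerPack Λ F r ∧
      rho n * (1 - r / r0) ^ n * ZLattice.covolume Λ ≤ F.card * (r ^ n * vb (En n)) := by
  obtain ⟨h1, h2, h3, h4⟩ := lat_iff.1 h
  have : IsZLattice ℝ Λ := ⟨h2⟩
  obtain ⟨F, hF, hc⟩ := fill Λ (d := 2 * r0) h4 hr (by linarith)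
  refine ⟨F, hF, ?_⟩
  rw [finrank_euclideanSpace_fin] at hc
  have e : 2 * r / (2 * r0) = r / r0 := by field_simp
  rw [e] at hc
  exact hc

/-- the number of translates for one lattice -/
lemma key (hn : 0 < n) {N : ℕ} (hN : 0 < N) {Λ : Submodule ℤ (En n)} {r0 : ℝ}
    (h : PerPack Λ {0} r0) {x : ℝ} (hx : 0 < x)
    (hxn : x ^ n * rho n = N * (r0 ^ n * vb (En n) / ZLattice.covolume Λ)) :
    N * (r0 ^ n * vb (En n) / ZLattice.covolume Λ) ≤ (1 + x) ^ n * sSup (perSet n N) := by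
  have hr0 := h.pos
  have hv := vb_pos (E := En n)
  have hcov := covol_pos h
  have hρ := rho_pos hn
  set t : ℝ := 1 / (1 + x) with ht
  have ht0 : 0 < t := by positivity
  have ht1 : t < 1 := by rw [ht, div_lt_one (by positivity)]; linarith
  obtain ⟨F, hF, hc⟩ := fill' h (r := t * r0) (by positivity) (by nlinarith)
  have e1 : 1 - t * r0 / r0 = x * t := by
    rw [mul_div_assoc, div_self hr0.ne', mul_one, ht]
    field_simp
    ring
  rw [e1] at hc
  have hcard : N ≤ F.card := by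
    have h1 : (N : ℝ) * ((t * r0) ^ n * vb (En n)) ≤ F.card * ((t * r0) ^ n * vb (En n)) := by
      refine le_trans (le_of_eq ?_) hc
      rw [mul_pow, mul_pow]
      have : (N : ℝ) * (r0 ^ n * vb (En n)) = x ^ n * rho n * ZLattice.covolume Λ := by
        rw [hxn]; field_simp
      calc (N : ℝ) * (t ^ n * r0 ^ n * vb (En n)) = t ^ n * ((N : ℝ) * (r0 ^ n * vb (En n))) := by ring
        _ = t ^ n * (x ^ n * rho n * ZLattice.covolume Λ) := by rw [this]
        _ = _ := by ring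
    have h2 := le_of_mul_le_mul_right h1 (by positivity)
    exact_mod_cast h2
  obtain ⟨F', hF', hcF'⟩ := Finset.exists_subset_card_eq hcard
  have h5 : (F'.card : ℝ) * ((t * r0) ^ n * vb (En n)) / ZLattice.covolume Λ ≤ sSup (perSet n N) :=
    le_csSup (perSet_bdd hn N) ⟨Λ, F', t * r0, sub_pack hF hF', hcF'.le, rfl⟩
  rw [hcF'] at h5
  have h6 : (1 + x) ^ n * t ^ n = 1 := by
    rw [← mul_pow, ht, mul_one_div_cancel (by positivity), one_pow]
  calc N * (r0 ^ n * vb (En n) / ZLattice.covolume Λ)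
      = (1 + x) ^ n * t ^ n * (N * (r0 ^ n * vb (En n) / ZLattice.covolume Λ)) := by rw [h6, one_mul]
    _ = (1 + x) ^ n * (N * ((t * r0) ^ n * vb (En n)) / ZLattice.covolume Λ) := by
        rw [mul_pow t]; ring
    _ ≤ (1 + x) ^ n * sSup (perSet n N) := by gcongr

lemma rpow_inv_pow {a : ℝ} (ha : 0 ≤ a) (hn : 0 < n) : (a ^ (1 / (n : ℝ))) ^ n = a := by
  rw [← Real.rpow_natCast, ← Real.rpow_mul ha, one_div, inv_mul_cancel₀ (by positivity),
    Real.rpow_one]

/-- **The number of translates.** -/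
theorem main (hn : 0 < n) {N : ℕ} (hN : 0 < N) :
    sSup (perSet n N) ^ (-(1 / (n : ℝ))) ≤
      (N * sSup (latSet n)) ^ (-(1 / (n : ℝ))) + rho n ^ (-(1 / (n : ℝ))) := by
  have hρ := rho_pos hn
  have hl := lat_pos hn
  have hc := per_pos hn hN
  have hN0 : (0 : ℝ) < N := by exact_mod_cast hN
  have hn0 : (0 : ℝ) < n := by exact_mod_cast hn
  set c := sSup (perSet n N) with hcdef
  set p : ℝ := 1 / (n : ℝ) with hp
  have hp0 : 0 < p := by positivity
  -- for all lattices
  have h1 : ∀ a ∈ latSet n, c ^ (-p) ≤ (N * a) ^ (-p) + rho n ^ (-p) := by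
    rintro a ⟨Λ, r0, h, rfl⟩
    have hr0 := h.pos
    have hv := vb_pos (E := En n)
    have hcov := covol_pos h
    set a := r0 ^ n * vb (En n) / ZLattice.covolume Λ with ha
    have ha0 : 0 < a := by positivity
    set x : ℝ := (N * a / rho n) ^ p with hx
    have hx0 : 0 < x := by positivity
    have hxn : x ^ n * rho n = N * a := by
      rw [hx, hp, rpow_inv_pow (by positivity) hn]
      field_simp
    have h2 := key hn hN h hx0 hxn
    have h3 : (N * a) ^ p ≤ (1 + x) * c ^ p := by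
      have h4 : (N * a) ^ p ≤ ((1 + x) ^ n * c) ^ p := Real.rpow_le_rpow (by positivity) h2 hp0.le
      rw [Real.mul_rpow (by positivity) hc.le, ← Real.rpow_natCast, ← Real.rpow_mul (by positivity),
        hp, mul_one_div_cancel (by positivity), Real.rpow_one] at h4
      exact h4
    have h5 : x = (N * a) ^ p / rho n ^ p := by
      rw [hx, Real.div_rpow (by positivity) hρ.le]
    have hA : 0 < (N * a) ^ p := by positivity
    have hB : 0 < rho n ^ p := by positivity
    have hC : 0 < c ^ p := by positivity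
    rw [Real.rpow_neg hc.le, Real.rpow_neg (by positivity), Real.rpow_neg hρ.le]
    rw [h5] at h3
    set A := (N * a) ^ p
    set B := rho n ^ p
    set C := c ^ p
    have h6 : A⁻¹ + B⁻¹ = (1 + A / B) / A := by field_simp
    rw [h6, inv_eq_one_div, div_le_div_iff₀ hC hA]
    linarith
  by_contra hcon
  push Not at hcon
  set A := c ^ (-p) - rho n ^ (-p) with hA
  have hA1 : (N * sSup (latSet n)) ^ (-p) < A := by rw [hA]; linarith
  have hA0 : 0 < A := lt_trans (by positivity) hA1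
  have h2 : sSup (latSet n) ≤ A ^ (-(n : ℝ)) / N := by
    obtain ⟨Λ, r, h⟩ := exists_lat n
    refine csSup_le ⟨_, Λ, r, h, rfl⟩ fun a ha => ?_
    have ha' : 0 < a := by
      obtain ⟨Λ, r0, h, rfl⟩ := ha
      have hr0 := h.pos
      have hv := vb_pos (E := En n)
      have hcov := covol_pos h
      positivity
    have h3 : A ≤ (N * a) ^ (-p) := by rw [hA]; linarith [h1 a ha]
    have h4 : ((N * a) ^ (-p)) ^ (-(n : ℝ)) ≤ A ^ (-(n : ℝ)) :=
      Real.rpow_le_rpow_of_nonpos hA0 h3 (by linarith)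
    rw [← Real.rpow_mul (by positivity), hp, neg_mul_neg, one_div_mul_cancel (by positivity),
      Real.rpow_one] at h4
    rw [le_div_iff₀ hN0]
    linarith
  have h3 : N * sSup (latSet n) ≤ A ^ (-(n : ℝ)) := by
    rw [le_div_iff₀ hN0] at h2; linarith
  have h4 : (A ^ (-(n : ℝ))) ^ (-p) ≤ (N * sSup (latSet n)) ^ (-p) :=
    Real.rpow_le_rpow_of_nonpos (by positivity) h3 (by linarith)
  rw [← Real.rpow_mul hA0.le, hp, neg_mul_neg, mul_one_div_cancel (by positivity),
    Real.rpow_one] at h4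
  linarith

end

end Pool.Agent.N304.TR
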